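import Pool.Agent.R652.Punct

/-!
The second Grzegorczyk class is a basis for punctual standardness (positive answer to Q1).

The definitions of the class `E2`, of punctual copies and of punctual standardness are in
`Pool/Agent/R652/PunctDefs.lean`.
-/

set_option autoImplicit false

namespace Pool.Agent.Results.MP_9dcafa_lc.SecondGrzegorczykBasis

open Pool.Agent.R652.Punct

/-- The second Grzegorczyk class is a basis for punctual standardness. More precisely, there is a
single function `T` of three variables in this class, with values in `{0, 1}`, such that every
punctual copy on which `T` is primitive recursive is punctually standard. -/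
theorem result :
    IsBasis (fun _ f => E2 f) ∧
      ∃ T : (Fin 3 → ℕ) → ℕ, E2 T ∧ (∀ v, T v ≤ 1) ∧
        ∀ A : PunctualCopy, A.PrimrecOn T → A.Standard := by
  have key : ∀ A : PunctualCopy, A.PrimrecOn U → A.Standard :=
    fun A h => A.standard_of (A.primrec_symm h)
  refine ⟨fun A h => key A (h 3 U U_E2), U, U_E2, ?_, key⟩
  intro v
  unfold U chi
  split_ifs <;> simp

end Pool.Agent.Results.MP_9dcafa_lc.SecondGrzegorczykBasis
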